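import Pool.Agent.helper6.EV.Spec
import Pool.Agent.helper91.DM.CT

/-! # Project ev, module VS (helper18): vertical shift of line integrals. -/

set_option autoImplicit false

namespace Pool.Agent.EV

open N1f72dd46 Filter MeasureTheory Complex Metric Pool.Agent.helper6.LD

theorem VS_int (g : ℂ → ℂ) (c C : ℝ)
    (h : ∀ s : ℂ, s.re = c → DifferentiableAt ℂ g s ∧ ‖g s‖ ≤ C * (1 + |s.im|) ^ (-(3 / 2) : ℝ)) :
    Integrable (fun y : ℝ => g ((c : ℂ) + y * I)) := by
  have hre : ∀ y : ℝ, ((c : ℂ) + y * I).re = c := fun y => by simp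
  have him : ∀ y : ℝ, ((c : ℂ) + y * I).im = y := fun y => by simp
  have hc : Continuous (fun y : ℝ => g ((c : ℂ) + y * I)) := by
    refine continuous_iff_continuousAt.mpr fun y => ?_
    exact ContinuousAt.comp (f := fun y : ℝ => (c : ℂ) + y * I) (g := g)
      (h _ (hre y)).1.continuousAt (by fun_prop)
  have hi : Integrable (fun y : ℝ => C * (1 + ‖y‖) ^ (-(3 / 2) : ℝ)) := by
    refine Integrable.const_mul ?_ C
    refine integrable_one_add_norm ?_
    simp
    norm_num
  refine hi.mono' hc.aestronglyMeasurable (Eventually.of_forall fun y => ?_)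
  have := (h _ (hre y)).2
  rwa [him] at this

theorem VS : VS_stmt := by
  intro g a b C hab hg
  have ia := VS_int g a C fun s hs => hg s hs.ge (hs.le.trans hab)
  have ib := VS_int g b C fun s hs => hg s (hab.trans hs.ge) hs.le
  refine ⟨ia, ib, ?_⟩
  have ta := intervalIntegral_tendsto_integral ia tendsto_neg_atTop_atBot tendsto_id
  have tb := intervalIntegral_tendsto_integral ib tendsto_neg_atTop_atBot tendsto_id
  have t0 : Tendsto (fun V : ℝ => (∫ v in (-V)..V, g ((b : ℂ) + v * I)) -
      ∫ v in (-V)..V, g ((a : ℂ) + v * I)) atTop (nhds 0) := by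
    have hb : ∀ᶠ V : ℝ in atTop, ‖(∫ v in (-V)..V, g ((b : ℂ) + v * I)) -
        ∫ v in (-V)..V, g ((a : ℂ) + v * I)‖ ≤
          2 * (b - a) * (C * (1 + V) ^ (-(3 / 2) : ℝ)) := by
      filter_upwards [eventually_gt_atTop 0] with V hV
      refine Pool.Agent.helper84.DM.ct_shift hab hV (fun z h1 h2 _ => (hg z h1 h2).1) ?_
      intro x h1 h2
      constructor
      · have := (hg ((x : ℂ) + V * I) (by simpa using h1) (by simpa using h2)).2
        simpa [abs_of_pos hV] using this
      · have := (hg ((x : ℂ) - V * I) (by simpa using h1) (by simpa using h2)).2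
        simpa [abs_of_pos hV] using this
    refine squeeze_zero_norm' hb ?_
    have h1 : Tendsto (fun V : ℝ => (1 + V) ^ (-(3 / 2) : ℝ)) atTop (nhds 0) :=
      (tendsto_rpow_neg_atTop (by norm_num : (0 : ℝ) < 3 / 2)).comp
        (tendsto_atTop_add_const_left atTop 1 tendsto_id)
    have h2 := (h1.const_mul C).const_mul (2 * (b - a))
    simpa using h2
  have t1 := tb.sub ta
  have := tendsto_nhds_unique t1 t0
  exact (sub_eq_zero.mp this).symm

end Pool.Agent.EV
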